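import Pool.Agent.H121.UE.Iface
import Pool.Agent.H548.MY.TopY

/-! UE-TOPY: the numerical range of `Op k + lam ω` reaches `κ + lam b` (the proof of
`Pool.Agent.H548.MY.topY` with `b` in place of `1`). -/

set_option autoImplicit false
set_option linter.unusedSectionVars false

open scoped BigOperators InnerProductSpace Topology ENNReal
open Filter MeasureTheory ProbabilityTheory

namespace Pool.Agent.H34.UE

open Pool.Agent.Y662.TR (LL Cf Mw dv hu lmk lmk_apply ll_sum ll_inner clp)
open Pool.Agent.H987.Y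
open Pool.Agent.H121.Z987 (wt HH HH_apply)
open Pool.Agent.H121.UE
open Pool.Agent.H548.MY
open Pool.Agent.H410.ME (good_box bx mem_bx card_bx card_bd)

theorem clp_ge' {lam η v b : ℝ} (hl : 0 < lam) (hη : 0 < η) (hb : b ≤ 1) (hv : b - η < v) :
    lam * (b - η) ≤ clp lam (lam * v) := by
  unfold clp
  rw [abs_of_pos hl]
  refine le_max_of_le_right (le_min ?_ ?_)
  · nlinarith
  · exact mul_le_mul_of_nonneg_left hv.le hl.le

theorem topY' : S_topY' := by
  classical
  intro d k h κ hd hk hκ happ μ _ hμ1 b hμ lam hlam e0 he0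
  have hb1 : b ≤ 1 := by
    by_contra hcon
    push Not at hcon
    have h1 := hμ (b - 1) (by linarith)
    rw [sub_sub_cancel] at h1
    have h2 : μ (Set.Ioi 1) = 0 := by
      refine measure_mono_null ?_ (ae_iff.1 hμ1)
      intro v hv
      have h3 : (1 : ℝ) < v := hv
      show ¬ |v| ≤ 1
      rw [not_le]
      exact h3.trans_le (le_abs_self v)
    exact h1.ne' h2
  -- the parameters
  obtain ⟨g, hg⟩ : ∃ g, g = κ + lam * b - e0 := ⟨_, rfl⟩
  have hg0 : 0 < g := by rw [hg]; linarith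
  obtain ⟨η, hη⟩ : ∃ η, η = g / (4 * (1 + lam)) := ⟨_, rfl⟩
  have hη0 : 0 < η := by rw [hη]; positivity
  have hη1 : η * (1 + lam) = g / 4 := by
    rw [hη]
    field_simp
  obtain ⟨R, B, hBR, hB⟩ := happ η hη0
  have hh0 := hk.h0
  obtain ⟨L, hL⟩ := exists_nat_gt (8 * h * d * R / g)
  have hL0 : (0 : ℝ) < L := lt_of_le_of_lt (by positivity) hL
  have hL1 : 0 < L := by exact_mod_cast hL0
  have hL2 : 2 * h * (2 * d * R / L) < g / 2 := by
    rw [div_lt_iff₀ hg0] at hL
    rw [← mul_div_assoc, div_lt_iff₀ hL0]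
    linarith
  -- the boxes
  let i0 : Fin d := ⟨0, hd⟩
  let a : ℕ → Fin d → ℤ := fun j => fun i => if i = i0 then (j : ℤ) * L else 0
  let Λ : ℕ → Finset (Lt d) := fun j => bx (a j) L
  have hdis : Pairwise fun i j => Disjoint (Λ i) (Λ j) := by
    intro j j' hjj
    rw [Finset.disjoint_left]
    intro x h1 h2
    have h3 := mem_bx.1 h1 i0
    have h4 := mem_bx.1 h2 i0
    simp only [a, if_true] at h3 h4
    have h5 : (j : ℤ) < j' + 1 := by
      by_contra h
      push Not at h
      nlinarith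
    have h6 : (j' : ℤ) < j + 1 := by
      by_contra h
      push Not at h
      nlinarith
    exact hjj (by omega)
  have hcard : ∀ j, (Λ j).card ≤ L ^ d := fun j => (card_bx (a j) L).le
  have hgood := good_box μ (Set.Ioi (b - η)) measurableSet_Ioi (hμ η hη0) Λ hdis _ hcard
  filter_upwards [hgood] with ω hω
  obtain ⟨j, hj⟩ := hω
  refine ⟨tf (Λ j), ?_⟩
  rw [tf_norm, hh_tf hk]
  have hΛe : Λ j = bx (a j) L := rfl
  have h3 : ∀ x ∈ Λ j, (κ - η + lam * (b - η)) - 2 * h * (if x ∈ nbd (a j) L R then 1 else 0) ≤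
      ∑ y ∈ Λ j, k x y + clp lam (lam * ω x) := by
    intro x hx
    have h4 := clp_ge' hlam hη0 hb1 (hj x hx)
    have h5 : (κ - η) - 2 * h * (if x ∈ nbd (a j) L R then 1 else 0) ≤ ∑ y ∈ Λ j, k x y := by
      by_cases hn : x ∈ nbd (a j) L R
      · rw [if_pos hn]
        have h6 := S_out hk (Λ j) x
        have h7 := row_le hk x (hκ x)
        linarith
      · rw [if_neg hn, mul_zero, sub_zero]
        exact S_in hk x (hκ x) hB (Λ j) fun y hy => in_box hx hn y (hBR x y hy)
    linarith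
  refine lt_of_lt_of_le ?_ (Finset.sum_le_sum h3)
  rw [Finset.sum_sub_distrib, Finset.sum_const, nsmul_eq_mul, ← Finset.mul_sum]
  have hcn : ∑ x ∈ Λ j, (if x ∈ nbd (a j) L R then (1 : ℝ) else 0) = (nbd (a j) L R).card := by
    rw [← Finset.sum_filter, Finset.sum_const, nsmul_eq_mul, mul_one]
    congr 2
    ext x
    rw [Finset.mem_filter]
    constructor
    · exact fun h => h.2
    · intro h
      refine ⟨?_, h⟩
      unfold nbd at h
      exact (Finset.mem_filter.1 h).1
  rw [hcn]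
  have hc1 : 0 < (Λ j).card := by
    rw [hΛe, card_bx]
    positivity
  have hb1' : (0 : ℝ) < (Λ j).card := by exact_mod_cast hc1
  have hnb : ((nbd (a j) L R).card : ℝ) ≤ (2 * d * R / L) * (Λ j).card := by
    have h5 := card_nbd (a j) L R
    have h6 : ((nbd (a j) L R).card : ℝ) * L ≤ 2 * d * R * (Λ j).card := by exact_mod_cast h5
    rw [div_mul_eq_mul_div, le_div_iff₀ hL0]
    exact h6
  have h8 : 2 * h * ((nbd (a j) L R).card : ℝ) ≤ (2 * h * (2 * d * R / L)) * (Λ j).card := by
    calc 2 * h * ((nbd (a j) L R).card : ℝ) ≤ 2 * h * ((2 * d * R / L) * (Λ j).card) :=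
          mul_le_mul_of_nonneg_left hnb (by positivity)
      _ = _ := by ring
  have h9 : (2 * h * (2 * d * R / L)) * (Λ j).card ≤ g / 2 * (Λ j).card :=
    mul_le_mul_of_nonneg_right hL2.le hb1'.le
  have h10 : κ - η + lam * (b - η) = e0 + g - g / 4 := by
    rw [← hη1, hg]; ring
  rw [h10]
  have h11 : 0 < g * (Λ j).card := mul_pos hg0 hb1'
  nlinarith

end Pool.Agent.H34.UE
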